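import Pool.Agent.K3h94.AT.Stm

/-! Project AT (MP_054fa1_nt), brick NZ: short products are not real. -/

set_option autoImplicit false

open Finset

namespace Pool.Agent.K3h4.AT

open Pool.Agent.K3h94.AT

/-- the step of the invariant -/
lemma step {n h x y : ℤ} (hn : 1 ≤ n) (hh : 0 ≤ h) (hhn : h ≤ n) (hx : 0 < x) (hy : 0 ≤ y)
    (hxy : n * y ≤ h * x) :
    0 < (n + h + 1) * x - y ∧ 0 < x + (n + h + 1) * y ∧
      n * (x + (n + h + 1) * y) ≤ (h + 1) * ((n + h + 1) * x - y) := by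
  have hn0 : 0 < n := by linarith
  refine ⟨?_, ?_, ?_⟩
  · have e : n * ((n + h + 1) * x - y) = (n * (n + h + 1) - h) * x + (h * x - n * y) := by ring
    have h1 : 0 < n * (n + h + 1) - h := by nlinarith
    have h2 : 0 < n * ((n + h + 1) * x - y) := by
      rw [e]
      have := mul_pos h1 hx
      linarith
    exact pos_of_mul_pos_right h2 hn0.le
  · have h1 : 0 ≤ (n + h + 1) * y := mul_nonneg (by linarith) hy
    linarith
  · have e : n * ((h + 1) * ((n + h + 1) * x - y)) - n * (n * (x + (n + h + 1) * y)) =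
        x * ((n - h) * (h + 1)) + ((h + 1) + n * (n + h + 1)) * (h * x - n * y) := by ring
    have h1 : 0 ≤ x * ((n - h) * (h + 1)) :=
      mul_nonneg hx.le (mul_nonneg (by linarith) (by linarith))
    have h2 : 0 ≤ ((h + 1) + n * (n + h + 1)) * (h * x - n * y) := by
      refine mul_nonneg ?_ (by linarith)
      have : 0 ≤ n * (n + h + 1) := mul_nonneg hn0.le (by linarith)
      linarith
    have h3 : n * (n * (x + (n + h + 1) * y)) ≤ n * ((h + 1) * ((n + h + 1) * x - y)) := by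
      linarith
    exact le_of_mul_le_mul_left h3 hn0

lemma inv (n : ℕ) (hn : 1 ≤ n) : ∀ h : ℕ, h ≤ n → ∃ x y : ℤ, 0 < x ∧ 0 ≤ y ∧ (1 ≤ h → 0 < y) ∧
    (n : ℤ) * y ≤ (h : ℤ) * x ∧
    (((∏ j ∈ range h, (⟨1, ((n + 1 + j : ℕ) : ℤ)⟩ : GaussianInt)).re = x ∧
        (∏ j ∈ range h, (⟨1, ((n + 1 + j : ℕ) : ℤ)⟩ : GaussianInt)).im = -y) ∨
      ((∏ j ∈ range h, (⟨1, ((n + 1 + j : ℕ) : ℤ)⟩ : GaussianInt)).re = y ∧
        (∏ j ∈ range h, (⟨1, ((n + 1 + j : ℕ) : ℤ)⟩ : GaussianInt)).im = x) ∨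
      ((∏ j ∈ range h, (⟨1, ((n + 1 + j : ℕ) : ℤ)⟩ : GaussianInt)).re = -x ∧
        (∏ j ∈ range h, (⟨1, ((n + 1 + j : ℕ) : ℤ)⟩ : GaussianInt)).im = y) ∨
      ((∏ j ∈ range h, (⟨1, ((n + 1 + j : ℕ) : ℤ)⟩ : GaussianInt)).re = -y ∧
        (∏ j ∈ range h, (⟨1, ((n + 1 + j : ℕ) : ℤ)⟩ : GaussianInt)).im = -x)) := by
  intro h
  induction h with
  | zero =>
    intro _
    exact ⟨1, 0, by norm_num, le_rfl, fun h => absurd h (by norm_num), by norm_num,
      Or.inl ⟨by simp, by simp⟩⟩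
  | succ h ih =>
    intro hh
    obtain ⟨x, y, hx, hy, -, hxy, hc⟩ := ih (by omega)
    have hn' : (1 : ℤ) ≤ n := by exact_mod_cast hn
    have hh' : (h : ℤ) ≤ n := by exact_mod_cast (by omega : h ≤ n)
    obtain ⟨s1, s2, s3⟩ := step hn' (by positivity) hh' hx hy hxy
    refine ⟨((n : ℤ) + h + 1) * x - y, x + ((n : ℤ) + h + 1) * y, s1, s2.le, fun _ => s2, ?_, ?_⟩
    · push_cast
      exact s3
    · rw [prod_range_succ]
      generalize (∏ j ∈ range h, (⟨1, ((n + 1 + j : ℕ) : ℤ)⟩ : GaussianInt)) = z at hc ⊢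
      have e1 : (z * (⟨1, ((n + 1 + h : ℕ) : ℤ)⟩ : GaussianInt)).re =
          z.re - ((n : ℤ) + h + 1) * z.im := by
        rw [Zsqrtd.re_mul]
        push_cast
        ring
      have e2 : (z * (⟨1, ((n + 1 + h : ℕ) : ℤ)⟩ : GaussianInt)).im =
          z.im + ((n : ℤ) + h + 1) * z.re := by
        rw [Zsqrtd.im_mul]
        push_cast
        ring
      rw [e1, e2]
      rcases hc with ⟨c1, c2⟩ | ⟨c1, c2⟩ | ⟨c1, c2⟩ | ⟨c1, c2⟩
      · right; left
        rw [c1, c2]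
        constructor <;> ring
      · right; right; left
        rw [c1, c2]
        constructor <;> ring
      · right; right; right
        rw [c1, c2]
        constructor <;> ring
      · left
        rw [c1, c2]
        constructor <;> ring

/-- Brick NZ -/
theorem t_NZ : S_NZ := by
  intro n h h1 h2
  obtain ⟨x, y, hx, -, hy, -, hc⟩ := inv n (by omega) h h2
  have hy' := hy h1
  rcases hc with ⟨-, c⟩ | ⟨-, c⟩ | ⟨-, c⟩ | ⟨-, c⟩ <;> rw [c] <;> omega

end Pool.Agent.K3h4.AT
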